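import Pool.Agent.Helper58.R3.Stmts

set_option autoImplicit false
open Classical

namespace Pool.Agent.Helper58.R3

theorem st_CLS (h1 : ST_CN) (h2 : ST_DIST) (h3 : ST_EO) (h4 : ST_NG) : ST_CLS := by
  intro m H v0 A X L D Φ i a hc
  have key : ∀ n, NoPc H v0 n := by
    intro n
    induction n with
    | zero =>
      intro K Θ hp
      obtain ⟨x, hx, -⟩ := hp.edge
      exact Finset.card_pos.2 ⟨x, hx⟩
    | succ n ih =>
      obtain ⟨s, t, x, hst, hxX, hx0, hs, ht⟩ := h2 m H v0 A X L D Φ i a hc
      by_cases hall : ∀ j, Φ (i j) (a j) ∈ X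
      · exact h3 m H v0 A X L D Φ i a hc n ih hall
      · push Not at hall
        obtain ⟨r, hr⟩ := hall
        have hno : ∀ z ∈ X, z ≠ v0 → ¬ H.Adj (a r) z := by
          intro z hz hz0 hadj
          exact hr (h1 m H v0 A X L D Φ i a hc r z hz hz0 hadj).1
        have hrs : r ≠ s := by
          rintro rfl
          exact hno x hxX hx0 hs
        have hrt : r ≠ t := by
          rintro rfl
          exact hno x hxX hx0 ht
        exact h4 m H v0 A X L D Φ i a hc n ih s t r x hst hrs hrt hxX hx0 hs ht hno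
  intro K Θ hp
  exact lt_irrefl _ (key K.card K Θ hp)

end Pool.Agent.Helper58.R3
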